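import Mathlib

open Filter Topology Set

namespace Pool.Agent.H.MP_f650bf_an

open NormedSpace

variable {K : Type*} [RCLike K] {X : Type*} [NormedAddCommGroup X] [NormedSpace K X]
  {Y : Type*} [NormedAddCommGroup Y] [NormedSpace K Y]

theorem hom {Z : Type*} [NormedAddCommGroup Z] [NormedSpace K Z] (E : Submodule K Z) (y : Z)
    (d lam : ℝ) (hd : 0 < d) (hlam : 1 < lam) (hyd : d ≤ ‖y‖)
    (h2 : ∀ v ∈ E, ‖v‖ = 1 → ∀ c : K, ‖c‖ ≤ 2 / d → lam⁻¹ < ‖v + c • y‖) :
    ∀ v ∈ E, ∀ c : K, ‖v‖ ≤ lam * ‖v + c • y‖ := by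
  intro v hv c
  have hl0 : 0 < lam := by linarith
  rcases eq_or_ne v 0 with rfl | hv0
  · simp only [norm_zero]; positivity
  have hn : 0 < ‖v‖ := norm_pos_iff.2 hv0
  by_cases hcd : ‖c‖ ≤ 2 / d * ‖v‖
  · have := h2 (((‖v‖ : ℝ) : K)⁻¹ • v) (E.smul_mem _ hv) (by simp [norm_smul, hn.ne'])
      (((‖v‖ : ℝ) : K)⁻¹ * c) (by
      simp only [norm_mul, norm_inv, RCLike.norm_ofReal, abs_norm]
      rw [inv_mul_le_iff₀ hn]; linarith)
    rw [mul_smul, ← smul_add, norm_smul, norm_inv, RCLike.norm_ofReal, abs_norm] at this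
    rw [lt_inv_mul_iff₀ hn, mul_inv_lt_iff₀ hl0] at this
    linarith
  · push Not at hcd
    have h3 : ‖c • y‖ ≤ ‖v + c • y‖ + ‖v‖ := by
      calc ‖c • y‖ = ‖(v + c • y) - v‖ := by congr 1; abel
        _ ≤ _ := norm_sub_le _ _
    rw [norm_smul] at h3
    have h4 : 2 * ‖v‖ ≤ ‖c‖ * ‖y‖ := by
      have : 2 / d * ‖v‖ * d ≤ ‖c‖ * ‖y‖ :=
        mul_le_mul hcd.le hyd hd.le (norm_nonneg _)
      have e : 2 / d * ‖v‖ * d = 2 * ‖v‖ := by field_simp
      linarith
    have h5 : ‖v‖ ≤ ‖v + c • y‖ := by linarith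
    nlinarith [norm_nonneg (v + c • y)]

theorem cpt {Z : Type*} [NormedAddCommGroup Z] [NormedSpace K Z] (s : Finset Z) :
    IsCompact {v : Z | v ∈ Submodule.span K (s : Set Z) ∧ ‖v‖ = 1} := by
  set E := Submodule.span K (s : Set Z) with hE
  have : FiniteDimensional K E := FiniteDimensional.span_finset K s
  have : ProperSpace E := FiniteDimensional.proper K E
  have h := (isCompact_sphere (0 : E) 1).image continuous_subtype_val
  convert h using 1
  ext v
  constructor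
  · rintro ⟨h1, h2⟩
    exact ⟨⟨v, h1⟩, by simpa using h2, rfl⟩
  · rintro ⟨w, h1, rfl⟩
    exact ⟨w.2, by simpa using h1⟩

omit [NormedAddCommGroup X] [NormedSpace K X] in
theorem step (C : Set X) (J : X → StrongDual K Y) (xi : WeakDual K Y)
    (hxi : xi ∈ closure ((fun x => StrongDual.toWeakDual (J x)) '' C))
    (d : ℝ) (hd : 0 < d)
    (hdist : ∀ x : X, d ≤ ‖J x - WeakDual.toStrongDual xi‖)
    (s : Finset (StrongDual K Y)) (lam : ℝ) (hlam : 1 < lam) :
    ∃ x ∈ C, ∀ v ∈ Submodule.span K (s : Set (StrongDual K Y)), ∀ c : K,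
      ‖v‖ ≤ lam * ‖v + c • (J x - WeakDual.toStrongDual xi)‖ := by
  have hc : IsCompact ({v : StrongDual K Y | v ∈ Submodule.span K (s : Set (StrongDual K Y)) ∧
      ‖v‖ = 1} ×ˢ (Metric.closedBall (0 : K) (2 / d))) :=
    (cpt s).prod (isCompact_closedBall _ _)
  have hl1 : lam⁻¹ < 1 := inv_lt_one_of_one_lt₀ hlam
  have hev := hc.eventually_forall_of_forall_eventually (x₀ := xi)
      (P := fun (eta : WeakDual K Y) (y : StrongDual K Y × K) =>
        lam⁻¹ < ‖y.1 + y.2 • (WeakDual.toStrongDual eta - WeakDual.toStrongDual xi)‖) (by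
    rintro ⟨v, c⟩ ⟨⟨-, hv1⟩, -⟩
    obtain ⟨f, hf1, hf2⟩ := v.exists_lt_apply_of_lt_opNorm
      (r := lam⁻¹) (by rw [show ‖v‖ = 1 from hv1]; exact hl1)
    have hcont : Continuous (fun z : WeakDual K Y × (StrongDual K Y × K) =>
        ‖z.2.1 f + z.2.2 * (z.1 f - xi f)‖) := by
      have h1 : Continuous (fun z : WeakDual K Y × (StrongDual K Y × K) => z.1 f) :=
        (WeakDual.eval_continuous f).comp continuous_fst
      have h2 : Continuous (fun z : WeakDual K Y × (StrongDual K Y × K) => z.2.1 f) := by fun_prop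
      exact (h2.add ((continuous_snd.comp continuous_snd).mul (h1.sub continuous_const))).norm
    have h0 : lam⁻¹ < ‖((xi, (v, c)) : WeakDual K Y × (StrongDual K Y × K)).2.1 f +
        ((xi, (v, c)) : WeakDual K Y × (StrongDual K Y × K)).2.2 *
        (((xi, (v, c)) : WeakDual K Y × (StrongDual K Y × K)).1 f - xi f)‖ := by
      simpa using hf2
    filter_upwards [hcont.continuousAt.eventually (lt_mem_nhds h0)] with z hz
    refine hz.trans_le ?_
    exact (z.2.1 + z.2.2 • (WeakDual.toStrongDual z.1 -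
      WeakDual.toStrongDual xi)).unit_le_opNorm f hf1.le)
  obtain ⟨eta, h1, h2⟩ := ((mem_closure_iff_frequently.1 hxi).and_eventually hev).exists
  obtain ⟨x, hx, rfl⟩ := h1
  refine ⟨x, hx, hom _ _ d lam hd hlam (hdist x) fun v hv hv1 c hc => ?_⟩
  exact h2 (v, c) ⟨⟨hv, hv1⟩, by simpa using hc⟩

theorem sel {Z : Type*} [NormedAddCommGroup Z] [NormedSpace K Z] [CompleteSpace X] (C : Set X)
    (J : X →ₗᵢ[K] Z) (z : Z) (hzr : z ∉ Set.range J)
    (hstep : ∀ d : ℝ, 0 < d → (∀ x : X, d ≤ ‖J x - z‖) → ∀ (s : Finset Z) (lam : ℝ), 1 < lam →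
      ∃ x ∈ C, ∀ v ∈ Submodule.span K (s : Set Z), ∀ c : K, ‖v‖ ≤ lam * ‖v + c • (J x - z)‖) :
    ∃ x : ℕ → X, (∀ n, x n ∈ C) ∧ ∃ L : ℝ, 0 < L ∧ ∀ (a : ℕ → K) (k N : ℕ), k ≤ N →
      ‖∑ n ∈ Finset.range k, a n • x n‖ ≤ L * ‖∑ n ∈ Finset.range N, a n • x n‖ ∧
      ‖∑ n ∈ Finset.range N, a n - ∑ n ∈ Finset.range k, a n‖ ≤
        L * ‖∑ n ∈ Finset.range N, a n • x n‖ := by
  classical
  have hJn : ∀ x, ‖J x‖ = ‖x‖ := fun x => J.norm_map x
  have hclosed : IsClosed (Set.range J) := J.isometry.isClosedEmbedding.isClosed_range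
  obtain ⟨d, hd, hdist⟩ : ∃ d : ℝ, 0 < d ∧ ∀ x : X, d ≤ ‖J x - z‖ := by
    refine ⟨Metric.infDist z (Set.range J),
      (hclosed.notMem_iff_infDist_pos (Set.range_nonempty _)).1 hzr, fun x => ?_⟩
    rw [← dist_eq_norm, dist_comm]
    exact Metric.infDist_le_dist_of_mem ⟨x, rfl⟩
  let P : ℕ → ℝ := fun n => 1 + 1 / ((n : ℝ) + 1)
  have hP1 : ∀ n, 1 ≤ P n := fun n => by
    have : (0 : ℝ) ≤ 1 / ((n : ℝ) + 1) := by positivity
    simp only [P]; linarith
  have hP2 : ∀ n, P n ≤ 2 := fun n => by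
    have : 1 / ((n : ℝ) + 1) ≤ 1 := by
      rw [div_le_one (by positivity)]; linarith [Nat.cast_nonneg (α := ℝ) n]
    simp only [P]; linarith
  have hP3 : ∀ n, 1 < P n / P (n + 1) := fun n => by
    rw [one_lt_div (by linarith [hP1 (n + 1)])]
    have : 1 / (((n + 1 : ℕ) : ℝ) + 1) < 1 / ((n : ℝ) + 1) := by
      apply one_div_lt_one_div_of_lt (by positivity); push_cast; linarith
    simp only [P]; linarith
  choose F hF1 hF2 using fun (n : ℕ) (s : Finset Z) =>
    hstep d hd hdist s (P n / P (n + 1)) (hP3 n)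
  let S : ℕ → Finset Z := fun n =>
    Nat.rec {z} (fun n s => insert (J (F n s)) s) n
  have hS : ∀ n, S (n + 1) = insert (J (F n (S n))) (S n) := fun n => rfl
  let x : ℕ → X := fun n => F n (S n)
  refine ⟨x, fun n => hF1 n _, 2 * (1 + ‖z‖ / d + 1 / d), by positivity, fun a k N hk => ?_⟩
  set t := ∑ n ∈ Finset.range N, a n with ht
  let v : ℕ → Z := fun m =>
    t • z + ∑ n ∈ Finset.range m, a n • (J (x n) - z)
  have hzS : ∀ m, z ∈ S m := fun m => by
    induction m with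
    | zero => exact Finset.mem_singleton_self z
    | succ m ih => rw [hS]; exact Finset.mem_insert_of_mem ih
  have hv : ∀ m : ℕ, v m ∈ Submodule.span K (SetLike.coe (S m) : Set Z) := fun m => by
    induction m with
    | zero =>
      simp only [v, Finset.range_zero, Finset.sum_empty, add_zero]
      exact Submodule.smul_mem _ _ (Submodule.subset_span (hzS 0))
    | succ m ih =>
      simp only [v, Finset.sum_range_succ]
      rw [← add_assoc]
      refine Submodule.add_mem _ (Submodule.span_mono ?_ ih) (Submodule.smul_mem _ _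
        (Submodule.sub_mem _ (Submodule.subset_span ?_) (Submodule.subset_span (hzS (m + 1)))))
      · rw [hS]; intro y hy; exact Finset.mem_insert_of_mem hy
      · rw [hS]; exact Finset.mem_insert_self _ _
  have hmono : Monotone (fun m => ‖v m‖ / P m) := by
    apply monotone_nat_of_le_succ
    intro m
    have h := hF2 m (S m) (v m) (hv m) (a m)
    have e : v m + a m • (J (F m (S m)) - z) = v (m + 1) := by
      simp only [v, Finset.sum_range_succ, x]; abel
    rw [e] at h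
    have p1 := hP1 m
    have p2 := hP1 (m + 1)
    rw [div_le_div_iff₀ (by linarith) (by linarith)]
    rw [div_mul_eq_mul_div, le_div_iff₀ (by linarith)] at h
    linarith
  have hform : ∀ m, v m = J (∑ n ∈ Finset.range m, a n • x n) +
      (t - ∑ n ∈ Finset.range m, a n) • z := fun m => by
    simp only [v, map_sum, map_smul, smul_sub, Finset.sum_sub_distrib, sub_smul, Finset.sum_smul]
    abel
  have hN : ‖v N‖ = ‖∑ n ∈ Finset.range N, a n • x n‖ := by
    rw [hform, ← ht, sub_self, zero_smul, add_zero, hJn]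
  set W := ‖∑ n ∈ Finset.range N, a n • x n‖ with hW
  have hW0 : 0 ≤ W := norm_nonneg _
  have hk2 : ‖v k‖ ≤ 2 * W := by
    have h := hmono hk
    simp only at h
    rw [hN] at h
    have p1 := hP1 k
    have p2 := hP2 k
    have p3 := hP1 N
    have h' : W / P N ≤ W := div_le_self hW0 p3
    rw [div_le_iff₀ (by linarith)] at h
    nlinarith [div_nonneg hW0 (by linarith : 0 ≤ P N)]
  set tau := t - ∑ n ∈ Finset.range k, a n with htau
  set u := ∑ n ∈ Finset.range k, a n • x n with hu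
  have htd : ‖tau‖ * d ≤ ‖v k‖ := by
    rcases eq_or_ne tau 0 with h0 | h0
    · rw [h0]; simp
    · have e : v k = (-tau) • (J ((-tau)⁻¹ • u) - z) := by
        rw [hform, map_smul, smul_sub, smul_smul, mul_inv_cancel₀ (neg_ne_zero.2 h0), one_smul,
          neg_smul, sub_neg_eq_add]
      rw [e, norm_smul, norm_neg]
      exact mul_le_mul_of_nonneg_left (hdist _) (norm_nonneg _)
  have ht2 : ‖tau‖ ≤ 2 * W / d := by rw [le_div_iff₀ hd]; linarith
  have hz0 := norm_nonneg z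
  constructor
  · have e : J u = v k - tau • z := by rw [hform]; abel
    have h3 : ‖u‖ ≤ ‖v k‖ + ‖tau‖ * ‖z‖ := by
      rw [← hJn, e, ← norm_smul]; exact norm_sub_le _ _
    have h4 : ‖tau‖ * ‖z‖ ≤ 2 * W / d * ‖z‖ := mul_le_mul_of_nonneg_right ht2 hz0
    have e2 : 2 * (1 + ‖z‖ / d + 1 / d) * W = 2 * W + 2 * W / d * ‖z‖ + 2 * W / d := by ring
    have : 0 ≤ 2 * W / d := by positivity
    linarith
  · have e2 : 2 * (1 + ‖z‖ / d + 1 / d) * W = 2 * W + 2 * W / d * ‖z‖ + 2 * W / d := by ring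
    have : 0 ≤ 2 * W / d * ‖z‖ := by positivity
    linarith

theorem sel2 [CompleteSpace X] (C : Set X) (J : X →ₗᵢ[K] StrongDual K Y) (xi : WeakDual K Y)
    (hxi : xi ∈ closure ((fun x => StrongDual.toWeakDual (J x)) '' C))
    (hzr : ∀ x, StrongDual.toWeakDual (J x) ≠ xi) :
    ∃ x : ℕ → X, (∀ n, x n ∈ C) ∧ ∃ L : ℝ, 0 < L ∧ ∀ (a : ℕ → K) (k N : ℕ), k ≤ N →
      ‖∑ n ∈ Finset.range k, a n • x n‖ ≤ L * ‖∑ n ∈ Finset.range N, a n • x n‖ ∧
      ‖∑ n ∈ Finset.range N, a n - ∑ n ∈ Finset.range k, a n‖ ≤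
        L * ‖∑ n ∈ Finset.range N, a n • x n‖ :=
  sel C J (WeakDual.toStrongDual xi) (by rintro ⟨x, hx⟩; exact hzr x hx) (step C J xi hxi)

theorem sel' [NormedSpace ℝ X] [IsScalarTower ℝ K X] [CompleteSpace X] (C : Set X)
    (hb : Bornology.IsBounded C) (hcl : IsClosed C) (hco : Convex ℝ C)
    (hn : ¬ IsCompact (toWeakSpace K X '' C)) :
    ∃ x : ℕ → X, (∀ n, x n ∈ C) ∧ ∃ L : ℝ, 0 < L ∧ ∀ (a : ℕ → ℝ) (k N : ℕ), k ≤ N →
      ‖∑ n ∈ Finset.range k, a n • x n‖ ≤ L * ‖∑ n ∈ Finset.range N, a n • x n‖ ∧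
      |∑ n ∈ Finset.range N, a n - ∑ n ∈ Finset.range k, a n| ≤
        L * ‖∑ n ∈ Finset.range N, a n • x n‖ := by
  have h1 : ¬ closure (inclusionInDoubleDualWeak K X '' (toWeakSpace K X '' C)) ⊆
      Set.range (inclusionInDoubleDualWeak K X) := by
    intro h
    have := isCompact_closure_of_isBounded K X (toWeakSpace K X '' C)
      (by rw [Set.preimage_image_eq _ (toWeakSpace K X).injective]; exact hb) h
    rw [← hco.toWeakSpace_closure K, hcl.closure_eq] at this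
    exact hn this
  obtain ⟨xi, hxi, hr⟩ := Set.not_subset.1 h1
  rw [Set.image_image] at hxi
  obtain ⟨x, hx, L, hL, h⟩ := sel2 (Y := StrongDual K X) C (inclusionInDoubleDualLi (E := X) K) xi
    hxi (fun x hx => hr ⟨toWeakSpace K X x, hx⟩)
  refine ⟨x, hx, L, hL, fun a k N hk => ?_⟩
  have := h (fun n => (a n : K)) k N hk
  simp only [← RCLike.real_smul_eq_coe_smul] at this
  refine ⟨this.1, ?_⟩
  have h2 := this.2
  rw [← RCLike.ofReal_sum, ← RCLike.ofReal_sum, ← RCLike.ofReal_sub, RCLike.norm_ofReal] at h2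
  exact h2

end Pool.Agent.H.MP_f650bf_an
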