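import Pool.Agent.H.MP_f650bf_an.A

open Filter Topology Set

namespace Pool.Agent.H.MP_f650bf_an

variable {X : Type*} [NormedAddCommGroup X] [NormedSpace ℝ X]

def D : Set (ℕ → ℝ) := {s | Monotone s ∧ s 0 = 0 ∧ Tendsto s atTop (𝓝 1)}

noncomputable def ps (x : ℕ → X) (s : ℕ → ℝ) (N : ℕ) : X :=
  ∑ n ∈ Finset.range N, (s (n + 1) - s n) • x n

noncomputable def Phi (x : ℕ → X) (s : ℕ → ℝ) : X := ∑' n, (s (n + 1) - s n) • x n

theorem D_le {s : ℕ → ℝ} (hs : s ∈ D) (n : ℕ) : s n ≤ 1 := hs.1.ge_of_tendsto hs.2.2 n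

theorem D_ge {s : ℕ → ℝ} (hs : s ∈ D) (n : ℕ) : 0 ≤ s n := hs.2.1 ▸ hs.1 (Nat.zero_le n)

theorem ps_tendsto [CompleteSpace X] (x : ℕ → X) (R : ℝ) (hR : ∀ n, ‖x n‖ ≤ R) {s : ℕ → ℝ}
    (hs : s ∈ D) : Tendsto (ps x s) atTop (𝓝 (Phi x s)) := by
  have h0 : ∀ n, 0 ≤ s (n + 1) - s n := fun n => sub_nonneg.2 (hs.1 (Nat.le_succ n))
  have h1 : Summable (fun n => s (n + 1) - s n) := by
    refine summable_of_sum_range_le (c := 1) h0 fun n => ?_
    rw [Finset.sum_range_sub, hs.2.1, sub_zero]; exact D_le hs n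
  have h2 : Summable (fun n => (s (n + 1) - s n) • x n) := by
    refine Summable.of_norm_bounded (h1.mul_right R) fun n => ?_
    rw [norm_smul, Real.norm_of_nonneg (h0 n)]
    exact mul_le_mul_of_nonneg_left (hR n) (h0 n)
  exact h2.hasSum.tendsto_sum_nat

theorem ps_tail [CompleteSpace X] (x : ℕ → X) (R : ℝ) (hR : ∀ n, ‖x n‖ ≤ R) {s : ℕ → ℝ}
    (hs : s ∈ D) (N : ℕ) : ‖Phi x s - ps x s N‖ ≤ R * (1 - s N) := by
  have h : ∀ M, N ≤ M → ‖ps x s M - ps x s N‖ ≤ R * (s M - s N) := by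
    intro M hM
    induction M, hM using Nat.le_induction with
    | base => simp
    | succ M hM ih =>
      have h0 : 0 ≤ s (M + 1) - s M := sub_nonneg.2 (hs.1 (Nat.le_succ M))
      have e : ps x s (M + 1) - ps x s N = (ps x s M - ps x s N) + (s (M + 1) - s M) • x M := by
        simp only [ps, Finset.sum_range_succ]; abel
      rw [e]
      refine (norm_add_le _ _).trans ?_
      rw [norm_smul, Real.norm_of_nonneg h0]
      have := mul_le_mul_of_nonneg_left (hR M) h0
      nlinarith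
  refine le_of_tendsto_of_tendsto (((ps_tendsto x R hR hs).sub_const _).norm)
    ((hs.2.2.sub_const (s N)).const_mul R) ?_
  filter_upwards [eventually_ge_atTop N] with M hM using h M hM

theorem Phi_mem [CompleteSpace X] (x : ℕ → X) (R : ℝ) (hR : ∀ n, ‖x n‖ ≤ R) {C : Set X}
    (hcl : IsClosed C) (hco : Convex ℝ C) (hx : ∀ n, x n ∈ C) {s : ℕ → ℝ} (hs : s ∈ D) :
    Phi x s ∈ C := by
  have h1 : Tendsto (fun N => ps x s N + (1 - s N) • x 0) atTop (𝓝 (Phi x s + (1 - 1 : ℝ) • x 0)) :=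
    (ps_tendsto x R hR hs).add ((hs.2.2.const_sub 1).smul_const _)
  rw [sub_self, zero_smul, add_zero] at h1
  refine hcl.mem_of_tendsto h1 (Eventually.of_forall fun N => ?_)
  have := hco.sum_mem (t := Finset.range (N + 1))
    (w := fun n => if n < N then s (n + 1) - s n else 1 - s N)
    (z := fun n => if n < N then x n else x 0) (fun n _ => by
      split_ifs
      · exact sub_nonneg.2 (hs.1 (Nat.le_succ n))
      · exact sub_nonneg.2 (D_le hs N)) (by
      rw [Finset.sum_range_succ, if_neg (lt_irrefl N),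
        Finset.sum_congr rfl (fun n hn => if_pos (Finset.mem_range.1 hn)), Finset.sum_range_sub,
        hs.2.1]; ring) (fun n _ => by split_ifs <;> exact hx _)
  rw [Finset.sum_range_succ, if_neg (lt_irrefl N), if_neg (lt_irrefl N),
    Finset.sum_congr rfl (g := fun n => (s (n + 1) - s n) • x n) (fun n hn => by
      rw [if_pos (Finset.mem_range.1 hn), if_pos (Finset.mem_range.1 hn)])] at this
  exact this

theorem D_comb {s t : ℕ → ℝ} (hs : s ∈ D) (ht : t ∈ D) {a b : ℝ} (ha : 0 ≤ a) (hb : 0 ≤ b)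
    (hab : a + b = 1) : (fun n => a * s n + b * t n) ∈ D := by
  refine ⟨fun m n h => ?_, by simp [hs.2.1, ht.2.1], ?_⟩
  · exact add_le_add (mul_le_mul_of_nonneg_left (hs.1 h) ha) (mul_le_mul_of_nonneg_left (ht.1 h) hb)
  · have := (hs.2.2.const_mul a).add (ht.2.2.const_mul b)
    rwa [mul_one, mul_one, hab] at this

theorem Phi_comb [CompleteSpace X] (x : ℕ → X) (R : ℝ) (hR : ∀ n, ‖x n‖ ≤ R) {s t : ℕ → ℝ}
    (hs : s ∈ D) (ht : t ∈ D) {a b : ℝ} (ha : 0 ≤ a) (hb : 0 ≤ b) (hab : a + b = 1) :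
    Phi x (fun n => a * s n + b * t n) = a • Phi x s + b • Phi x t := by
  refine tendsto_nhds_unique (ps_tendsto x R hR (D_comb hs ht ha hb hab)) ?_
  have := ((ps_tendsto x R hR hs).const_smul a).add ((ps_tendsto x R hR ht).const_smul b)
  refine this.congr fun N => ?_
  simp only [ps, Finset.smul_sum, ← Finset.sum_add_distrib, smul_smul, ← add_smul]
  refine Finset.sum_congr rfl fun n _ => ?_
  congr 1; ring

theorem D_mul {s B : ℕ → ℝ} (hs : s ∈ D) (hB : Monotone B) (h0 : ∀ n, 0 ≤ B n)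
    (h1 : Tendsto B atTop (𝓝 1)) : (fun n => B n * s n) ∈ D := by
  refine ⟨fun m n h => mul_le_mul (hB h) (hs.1 h) (D_ge hs m) (h0 n), by simp [hs.2.1], ?_⟩
  simpa using h1.mul hs.2.2

section
variable [CompleteSpace X] (x : ℕ → X) (R : ℝ) (hR : ∀ n, ‖x n‖ ≤ R) (L : ℝ)
  (hL : ∀ (a : ℕ → ℝ) (k N : ℕ), k ≤ N →
      ‖∑ n ∈ Finset.range k, a n • x n‖ ≤ L * ‖∑ n ∈ Finset.range N, a n • x n‖ ∧
      |∑ n ∈ Finset.range N, a n - ∑ n ∈ Finset.range k, a n| ≤
        L * ‖∑ n ∈ Finset.range N, a n • x n‖)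
include hR hL

theorem key {s t : ℕ → ℝ} (hs : s ∈ D) (ht : t ∈ D) (k : ℕ) :
    ‖ps x s k - ps x t k‖ ≤ L * ‖Phi x s - Phi x t‖ ∧ |s k - t k| ≤ L * ‖Phi x s - Phi x t‖ := by
  have e1 : ∀ N, ∑ n ∈ Finset.range N, ((s (n + 1) - s n) - (t (n + 1) - t n)) • x n =
      ps x s N - ps x t N := fun N => by
    simp only [ps, ← Finset.sum_sub_distrib, ← sub_smul]
  have e2 : ∀ N, ∑ n ∈ Finset.range N, ((s (n + 1) - s n) - (t (n + 1) - t n)) = s N - t N :=
    fun N => by
      rw [Finset.sum_sub_distrib, Finset.sum_range_sub, Finset.sum_range_sub, hs.2.1, ht.2.1]; ring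
  have h := fun N hk => hL (fun n => (s (n + 1) - s n) - (t (n + 1) - t n)) k N hk
  simp only [e1, e2] at h
  have l1 := (((ps_tendsto x R hR hs).sub (ps_tendsto x R hR ht)).norm).const_mul L
  constructor
  · refine ge_of_tendsto l1 ?_
    filter_upwards [eventually_ge_atTop k] with N hN using (h N hN).1
  · have l2 := ((hs.2.2.sub ht.2.2).sub_const (s k - t k)).abs
    rw [sub_self, zero_sub, abs_neg] at l2
    refine le_of_tendsto_of_tendsto l2 l1 ?_
    filter_upwards [eventually_ge_atTop k] with N hN using (h N hN).2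

theorem inj : InjOn (Phi x) D := by
  intro s hs t ht h
  funext k
  have := (key x R hR L hL hs ht k).2
  rw [h, sub_self, norm_zero, mul_zero] at this
  exact sub_eq_zero.1 (abs_nonpos_iff.1 this)

theorem lip {s t B : ℕ → ℝ} (hs : s ∈ D) (ht : t ∈ D) (hB : Monotone B) (h0 : ∀ n, 0 ≤ B n)
    (h1 : Tendsto B atTop (𝓝 1)) :
    ‖Phi x (fun n => B n * s n) - Phi x (fun n => B n * t n)‖ ≤
      L * (2 + R) * ‖Phi x s - Phi x t‖ := by
  set G := L * ‖Phi x s - Phi x t‖ with hG
  have hG0 : 0 ≤ G := (abs_nonneg _).trans (key x R hR L hL hs ht 0).2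
  have hR0 : 0 ≤ R := (norm_nonneg _).trans (hR 0)
  have hB1 : ∀ n, B n ≤ 1 := fun n => hB.ge_of_tendsto h1 n
  have h : ∀ N, ‖(ps x (fun n => B n * s n) N - ps x (fun n => B n * t n) N) -
      B N • (ps x s N - ps x t N)‖ ≤ (B N - B 0) * (G * R + G) := by
    intro N
    induction N with
    | zero => simp [ps]
    | succ N ih =>
      have e : (ps x (fun n => B n * s n) (N + 1) - ps x (fun n => B n * t n) (N + 1)) -
          B (N + 1) • (ps x s (N + 1) - ps x t (N + 1)) =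
          ((ps x (fun n => B n * s n) N - ps x (fun n => B n * t n) N) -
            B N • (ps x s N - ps x t N)) + (B (N + 1) - B N) •
            ((s (N + 1) - t (N + 1)) • x N - (ps x s (N + 1) - ps x t (N + 1))) := by
        simp only [ps, Finset.sum_range_succ]; module
      rw [e]
      refine (norm_add_le _ _).trans ?_
      have hb : 0 ≤ B (N + 1) - B N := sub_nonneg.2 (hB (Nat.le_succ N))
      rw [norm_smul, Real.norm_of_nonneg hb]
      obtain ⟨k1, k2⟩ := key x R hR L hL hs ht (N + 1)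
      have k3 : ‖(s (N + 1) - t (N + 1)) • x N - (ps x s (N + 1) - ps x t (N + 1))‖ ≤ G * R + G := by
        refine (norm_sub_le _ _).trans (add_le_add ?_ k1)
        rw [norm_smul, Real.norm_eq_abs]
        exact mul_le_mul k2 (hR N) (norm_nonneg _) hG0
      have := mul_le_mul_of_nonneg_left k3 hb
      nlinarith
  have l1 := ((ps_tendsto x R hR (D_mul hs hB h0 h1)).sub (ps_tendsto x R hR (D_mul ht hB h0 h1))).norm
  refine le_of_tendsto l1 (Eventually.of_forall fun N => ?_)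
  have k1 := (key x R hR L hL hs ht N).1
  have k2 : ‖B N • (ps x s N - ps x t N)‖ ≤ G := by
    rw [norm_smul, Real.norm_of_nonneg (h0 N)]
    have := mul_le_mul (hB1 N) k1 (norm_nonneg _) zero_le_one
    linarith
  have k3 := norm_add_le ((ps x (fun n => B n * s n) N - ps x (fun n => B n * t n) N) -
      B N • (ps x s N - ps x t N)) (B N • (ps x s N - ps x t N))
  rw [sub_add_cancel] at k3
  have k4 : (B N - B 0) * (G * R + G) ≤ 1 * (G * R + G) :=
    mul_le_mul_of_nonneg_right (by linarith [hB1 N, h0 0]) (by positivity)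
  have e : L * (2 + R) * ‖Phi x s - Phi x t‖ = G + (G * R + G) := by rw [hG]; ring
  have := h N
  linarith

theorem closed (hL0 : 0 < L) : IsClosed (Phi x '' D) := by
  refine isSeqClosed_iff_isClosed.1 fun z w hz hw => ?_
  choose s hs hsz using hz
  have hk : ∀ i j k, |s i k - s j k| ≤ L * ‖z i - z j‖ := fun i j k => by
    rw [← hsz, ← hsz]; exact (key x R hR L hL (hs i) (hs j) k).2
  have hc : ∀ k, CauchySeq (fun i => s i k) := fun k => by
    rw [Metric.cauchySeq_iff]
    intro e he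
    obtain ⟨N, hN⟩ := Metric.cauchySeq_iff.1 hw.cauchySeq (e / L) (by positivity)
    refine ⟨N, fun i hi j hj => ?_⟩
    have h := hN i hi j hj
    rw [dist_eq_norm, lt_div_iff₀ hL0] at h
    rw [Real.dist_eq]; linarith [hk i j k]
  choose t ht using fun k => cauchySeq_tendsto_of_complete (hc k)
  have hk2 : ∀ i k, |s i k - t k| ≤ L * ‖z i - w‖ := fun i k =>
    le_of_tendsto_of_tendsto' ((ht k).const_sub (s i k)).abs
      ((hw.const_sub (z i)).norm.const_mul L) fun j => hk i j k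
  have htD : t ∈ D := by
    refine ⟨fun m n h => le_of_tendsto_of_tendsto' (ht m) (ht n) fun i => (hs i).1 h, ?_, ?_⟩
    · refine tendsto_nhds_unique (ht 0) ?_
      simp only [fun i => (hs i).2.1]; exact tendsto_const_nhds
    · rw [Metric.tendsto_atTop]
      intro e he
      obtain ⟨i, hi⟩ := Metric.tendsto_atTop.1 hw (e / 2 / L) (by positivity)
      obtain ⟨N, hN⟩ := Metric.tendsto_atTop.1 (hs i).2.2 (e / 2) (by positivity)
      refine ⟨N, fun n hn => ?_⟩
      have h1 := hi i le_rfl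
      have h2 := hN n hn
      rw [dist_eq_norm, lt_div_iff₀ hL0] at h1
      rw [Real.dist_eq] at h2 ⊢
      have h3 := hk2 i n
      rw [abs_lt] at h2 ⊢
      rw [abs_le] at h3
      constructor <;> linarith [h2.1, h2.2, h3.1, h3.2]
  refine ⟨t, htD, tendsto_nhds_unique (ps_tendsto x R hR htD) ?_⟩
  have h1 : ∀ N, ‖w - ps x t N‖ ≤ R * (1 - t N) := fun N => by
    have l1 : Tendsto (fun i => ps x (s i) N) atTop (𝓝 (ps x t N)) :=
      tendsto_finsetSum _ fun n _ => ((ht (n + 1)).sub (ht n)).smul_const _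
    refine le_of_tendsto_of_tendsto' (hw.sub l1).norm (((ht N).const_sub 1).const_mul R) fun i => ?_
    rw [← hsz]; exact ps_tail x R hR (hs i) N
  rw [tendsto_iff_norm_sub_tendsto_zero]
  have l2 := (htD.2.2.const_sub 1).const_mul R
  rw [sub_self, mul_zero] at l2
  refine squeeze_zero (fun _ => norm_nonneg _) (fun N => ?_) l2
  rw [norm_sub_rev]; exact h1 N

end

end Pool.Agent.H.MP_f650bf_an
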